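import Pool.Agent.Helper32.AG.Goals

/-!
# Project AG, packet FRM: the class number formula
-/

set_option autoImplicit false

namespace Pool.Agent.Helper3.AG

open Pool.Agent.Helper32.AG
open scoped commutatorElement

universe u

theorem mem_Kst {G : Type u} [Group G] (V : Subgroup G) [V.Normal]
    (hab : ∀ a ∈ V, ∀ b ∈ V, a * b = b * a) (v : G) (hv : v ∈ V) (x : G) :
    (x : G ⧸ V) ∈ Kst V v ↔ x * v = v * x := by
  constructor
  · rintro ⟨y, hy, hyx⟩
    have hy' : y * v = v * y := (Subgroup.mem_centralizer_singleton_iff.1 hy)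
    have h1 : (y : G ⧸ V) = (x : G ⧸ V) := hyx
    rw [QuotientGroup.eq] at h1
    obtain ⟨z, hz⟩ : ∃ z, z = y⁻¹ * x := ⟨_, rfl⟩
    rw [← hz] at h1
    have hx : x = y * z := by rw [hz]; group
    rw [hx, mul_assoc, hab z h1 v hv, ← mul_assoc, hy', mul_assoc]
  · intro h
    exact ⟨x, Subgroup.mem_centralizer_singleton_iff.2 h, rfl⟩

theorem frm : FrmStmt.{u} := by
  classical
  intro G _ _ V _ hab hcount
  let _ : Fintype (G ⧸ V) := Fintype.ofFinite _
  let _ : Fintype V := Fintype.ofFinite _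
  -- commuting pairs of `G` over pairs of classes
  have hA : Nat.card {p : G × G // Commute p.1 p.2} =
      ∑ q : (G ⧸ V) × (G ⧸ V),
        Nat.card {w : V × V // Commute (q.1.out * (w.1 : G)) (q.2.out * (w.2 : G))} := by
    rw [← Nat.card_sigma]
    refine (Nat.card_congr (Equiv.ofBijective (fun t : (Σ q : (G ⧸ V) × (G ⧸ V),
      {w : V × V // Commute (q.1.out * (w.1 : G)) (q.2.out * (w.2 : G))}) =>
      (⟨(t.1.1.out * (t.2.1.1 : G), t.1.2.out * (t.2.1.2 : G)), t.2.2⟩ :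
        {p : G × G // Commute p.1 p.2})) ⟨?_, ?_⟩)).symm
    · rintro ⟨⟨q1, q2⟩, ⟨⟨v1, v2⟩, h⟩⟩ ⟨⟨q1', q2'⟩, ⟨⟨v1', v2'⟩, h'⟩⟩ he
      have he1 : q1.out * (v1 : G) = q1'.out * (v1' : G) := congrArg (fun t => t.1.1) he
      have he2 : q2.out * (v2 : G) = q2'.out * (v2' : G) := congrArg (fun t => t.1.2) he
      have key : ∀ (q q' : G ⧸ V) (v v' : V), q.out * (v : G) = q'.out * (v' : G) →
          q = q' ∧ v = v' := by
        intro q q' v v' hq
        have h1 : ((q.out * (v : G) : G) : G ⧸ V) = ((q'.out * (v' : G) : G) : G ⧸ V) := by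
          rw [hq]
        rw [QuotientGroup.mk_mul_of_mem _ v.2, QuotientGroup.mk_mul_of_mem _ v'.2,
          QuotientGroup.out_eq', QuotientGroup.out_eq'] at h1
        subst h1
        exact ⟨rfl, Subtype.ext (mul_left_cancel hq)⟩
      obtain ⟨rfl, rfl⟩ := key _ _ _ _ he1
      obtain ⟨rfl, rfl⟩ := key _ _ _ _ he2
      rfl
    · rintro ⟨⟨g, h⟩, hgh⟩
      have key : ∀ g : G, (g : G ⧸ V).out⁻¹ * g ∈ V := by
        intro g
        rw [← QuotientGroup.eq]
        exact QuotientGroup.out_eq' _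
      refine ⟨⟨((g : G ⧸ V), (h : G ⧸ V)), ⟨(⟨_, key g⟩, ⟨_, key h⟩), ?_⟩⟩, ?_⟩
      · show Commute ((g : G ⧸ V).out * ((g : G ⧸ V).out⁻¹ * g))
          ((h : G ⧸ V).out * ((h : G ⧸ V).out⁻¹ * h))
        rw [mul_inv_cancel_left, mul_inv_cancel_left]
        exact hgh
      · apply Subtype.ext
        show ((g : G ⧸ V).out * ((g : G ⧸ V).out⁻¹ * g),
          (h : G ⧸ V).out * ((h : G ⧸ V).out⁻¹ * h)) = (g, h)
        rw [mul_inv_cancel_left, mul_inv_cancel_left]
  have hC : ∀ x y : G, Nat.card (Cc V x y) =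
      ∑ v : V, if ((x : G ⧸ V) ∈ Kst V (v : G) ∧ (y : G ⧸ V) ∈ Kst V (v : G)) then 1 else 0 := by
    intro x y
    rw [← Finset.card_filter, ← Fintype.card_subtype, ← Nat.card_eq_fintype_card]
    refine Nat.card_congr ⟨fun v => ⟨⟨v, v.2.1⟩, ?_, ?_⟩, fun v => ⟨v.1, v.1.2, ?_⟩,
      fun v => rfl, fun v => rfl⟩
    · rw [mem_Kst V hab _ v.2.1]
      exact Subgroup.mem_centralizer_iff.1 v.2.2 x (Or.inl rfl)
    · rw [mem_Kst V hab _ v.2.1]
      exact Subgroup.mem_centralizer_iff.1 v.2.2 y (Or.inr rfl)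
    · refine Subgroup.mem_centralizer_iff.2 ?_
      intro z hz
      rcases hz with rfl | hz
      · exact (mem_Kst V hab _ v.1.2 _).1 v.2.1
      · rw [Set.mem_singleton_iff] at hz
        rw [hz]
        exact (mem_Kst V hab _ v.1.2 _).1 v.2.2
  have hB : ∀ q : (G ⧸ V) × (G ⧸ V),
      Nat.card {w : V × V // Commute (q.1.out * (w.1 : G)) (q.2.out * (w.2 : G))} =
        Nat.card V * ∑ v : V,
          if (Commute q.1 q.2 ∧ q.1 ∈ Kst V (v : G) ∧ q.2 ∈ Kst V (v : G)) then 1 else 0 := by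
    intro q
    by_cases hq : Commute q.1 q.2
    · have h1 : ⁅q.1.out, q.2.out⁆ ∈ V := by
        rw [← QuotientGroup.eq_one_iff]
        show ((⁅q.1.out, q.2.out⁆ : G) : G ⧸ V) = 1
        rw [commutatorElement_def]
        show ((q.1.out : G) : G ⧸ V) * ((q.2.out : G) : G ⧸ V) * ((q.1.out : G) : G ⧸ V)⁻¹ *
          ((q.2.out : G) : G ⧸ V)⁻¹ = 1
        rw [QuotientGroup.out_eq', QuotientGroup.out_eq', hq.eq]
        group
      rw [hcount _ _ h1, hC, QuotientGroup.out_eq', QuotientGroup.out_eq']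
      congr 1
      refine Finset.sum_congr rfl fun v _ => ?_
      simp only [hq, true_and]
    · have h1 : IsEmpty {w : V × V // Commute (q.1.out * (w.1 : G)) (q.2.out * (w.2 : G))} := by
        refine ⟨fun w => hq ?_⟩
        have h2 := congrArg (fun g : G => (g : G ⧸ V)) w.2.eq
        simp only [QuotientGroup.mk_mul] at h2
        have e1 : ((w.1.1 : G) : G ⧸ V) = 1 := (QuotientGroup.eq_one_iff _).2 w.1.1.2
        have e2 : ((w.1.2 : G) : G ⧸ V) = 1 := (QuotientGroup.eq_one_iff _).2 w.1.2.2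
        rw [e1, e2, mul_one, mul_one, QuotientGroup.out_eq', QuotientGroup.out_eq'] at h2
        exact h2
      rw [Nat.card_of_isEmpty]
      simp only [hq, false_and, if_false, Finset.sum_const_zero, mul_zero]
  have hD : ∀ v : V, (∑ q : (G ⧸ V) × (G ⧸ V),
      if (Commute q.1 q.2 ∧ q.1 ∈ Kst V (v : G) ∧ q.2 ∈ Kst V (v : G)) then 1 else 0) =
      Nat.card (Kst V (v : G)) * k (Kst V (v : G)) := by
    intro v
    rw [mul_comm, k, ← card_comm_eq_card_conjClasses_mul_card, ← Finset.card_filter,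
      ← Fintype.card_subtype, ← Nat.card_eq_fintype_card]
    refine Nat.card_congr ⟨fun q => ⟨(⟨q.1.1, q.2.2.1⟩, ⟨q.1.2, q.2.2.2⟩), ?_⟩,
      fun p => ⟨(p.1.1, p.1.2), ?_, p.1.1.2, p.1.2.2⟩, fun _ => rfl, fun _ => rfl⟩
    · exact Subtype.ext q.2.1.eq
    · exact congrArg Subtype.val p.2.eq
  have hE : k G * Nat.card G = Nat.card V * ∑ v : V, Nat.card (Kst V (v : G)) *
      k (Kst V (v : G)) := by
    rw [k, ← card_comm_eq_card_conjClasses_mul_card, hA, Finset.sum_congr rfl fun q _ => hB q,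
      ← Finset.mul_sum, Finset.sum_comm, Finset.sum_congr rfl fun v _ => hD v]
  have hF : Nat.card G = Nat.card (G ⧸ V) * Nat.card V :=
    Subgroup.card_eq_card_quotient_mul_card_subgroup V
  have hV : 0 < Nat.card V := Nat.card_pos
  rw [finsum_eq_sum_of_fintype]
  refine Nat.eq_of_mul_eq_mul_left hV ?_
  rw [← hE, hF]
  ring

end Pool.Agent.Helper3.AG
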